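import Mathlib

set_option autoImplicit false

open Finset

namespace Pool.Agent.H469R10.HO

/-- TASK A (pure combinatorics). -/
def StructureLemma : Prop := ∃ (ε η : ℝ) (M N₀ : ℕ), 0 < ε ∧ 0 < η ∧ 0 < M ∧
  ∀ N : ℕ, N₀ ≤ N → ∀ f : ℕ → ℝ, (∀ i, 0 ≤ f i) →
    (∀ i : ℕ, ε * N ≤ i → i ≤ N → f i ≤ 1 + ε) →
    (∀ a b : ℕ, ε * N ≤ a → a ≤ b → b ≤ N → |∑ i ∈ Ico a b, f i - ((b:ℝ) - a) / 2| ≤ ε * N) →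
    (∀ K : ℕ, (N:ℝ) / 2 ≤ K → K + M ≤ N →
      (1 / 2 - ε) * K * M - K / 2 * ∑ i ∈ Ico K (K + M), f i ≤
        ∑ m ∈ Icc (K - 1) (K + M - 1),
          ∑ i ∈ (range (m + 1)).filter (fun i : ℕ => ε * N ≤ i ∧ ε * N ≤ (m : ℝ) - i), f i * f (m - i)) →
    ∀ K : ℕ, (1 - ε) * N ≤ K → K + M ≤ N → η * M ≤ ∑ i ∈ Ico K (K + M), f i

open Classical in
/-- TASK B: fundamental lemma of the sieve for intervals, with a strong error term. -/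
def FundLemma : Prop := ∀ κ : ℝ, 0 < κ → ∃ s : ℕ, 1 ≤ s ∧ 1 / (s : ℝ) ≤ κ ∧ ∃ z₀ : ℕ, 2 ≤ z₀ ∧ ∀ z : ℕ, z₀ ≤ z →
  ∃ V : ℝ, 0 < V ∧ V ≤ 2 / Real.log z ∧ ∀ A Y : ℕ, z ^ s ≤ Y →
    |(((Ioc A (A + Y)).filter (fun n => ∀ p : ℕ, p.Prime → p < z → ¬ p ∣ n)).card : ℝ) - V * Y| ≤
      κ / (s : ℝ) ^ 8 * V * Y

/-- TASK C: Brun-Titchmarsh with constant `2`. -/
def BT2 : Prop := ∀ ε : ℝ, 0 < ε → ∃ Y₀ : ℕ, 2 ≤ Y₀ ∧ ∀ A Y : ℕ, Y₀ ≤ Y →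
  (((Ioc A (A + Y)).filter Nat.Prime).card : ℝ) ≤ (2 + ε) * Y / Real.log Y

/-- TASK D: lower bound in Selberg's formula in short intervals. -/
def SelbergShort : Prop := ∀ ε : ℝ, 0 < ε → ∃ δ : ℝ, 0 < δ ∧ δ < 1 ∧ ∃ X₀ : ℕ, 2 ≤ X₀ ∧
  ∀ X Y : ℕ, X₀ ≤ X → (X : ℝ) ^ (1 - δ) ≤ Y → Y ≤ X →
    (2 - ε) * Y * Real.log X ≤
      Real.log X * ∑ p ∈ (Ioc X (X + Y)).filter Nat.Prime, Real.log p +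
      ∑ x ∈ (range (X + Y + 1) ×ˢ range (X + Y + 1)).filter
        (fun x : ℕ × ℕ => x.1.Prime ∧ x.2.Prime ∧ X < x.1 * x.2 ∧ x.1 * x.2 ≤ X + Y),
        Real.log x.1 * Real.log x.2

/-- TASK E: primes in short intervals (positive proportion). -/
def Hoheisel : Prop := ∃ δ η : ℝ, 0 < δ ∧ δ < 1 ∧ 0 < η ∧ ∃ X₀ : ℕ, 2 ≤ X₀ ∧
  ∀ X Y : ℕ, X₀ ≤ X → (X : ℝ) ^ (1 - δ) ≤ Y → Y ≤ X →
    η * Y / Real.log X ≤ (((Ioc X (X + Y)).filter Nat.Prime).card : ℝ)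

end Pool.Agent.H469R10.HO

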